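import Mathlib

/-! Type semigroup of a group action with pieces in a subalgebra (project CN, MP_3fd8c4_al). -/

namespace W477.CN

open Set

/-- A subalgebra of the power set of X. -/
structure IsAlg {X : Type} (𝒜 : Set (Set X)) : Prop where
  empty : (∅ : Set X) ∈ 𝒜
  univ : (Set.univ : Set X) ∈ 𝒜
  union : ∀ A ∈ 𝒜, ∀ B ∈ 𝒜, A ∪ B ∈ 𝒜
  inter : ∀ A ∈ 𝒜, ∀ B ∈ 𝒜, A ∩ B ∈ 𝒜
  compl : ∀ A ∈ 𝒜, Aᶜ ∈ 𝒜

/-- The family is invariant under the group G. -/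
def Inv {X : Type} (G : Type) [Group G] [MulAction G X] (𝒜 : Set (Set X)) : Prop :=
  ∀ g : G, ∀ A ∈ 𝒜, (fun x => g • x) '' A ∈ 𝒜

/-- The family of the finite unions of sets f m × {m} with f m in the algebra. -/
def Star {X : Type} (𝒜 : Set (Set X)) : Set (Set (X × ℕ)) :=
  {A | ∃ (n : ℕ) (f : ℕ → Set X), (∀ m, m < n → f m ∈ 𝒜) ∧ A = {p | p.2 < n ∧ p.1 ∈ f p.2}}

/-- The action of the pair (g, π) on X × ℕ. -/
def act {X G : Type} [Group G] [MulAction G X] (h : G × Equiv.Perm ℕ) (p : X × ℕ) : X × ℕ :=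
  (h.1 • p.1, h.2 p.2)

/-- Equidecomposability in the algebra: a finite partition of A into pieces P i of the family Star,
such that the images of the pieces form a partition of B. -/
def Equi {X : Type} (G : Type) [Group G] [MulAction G X] (𝒜 : Set (Set X))
    (A B : Set (X × ℕ)) : Prop :=
  ∃ (ι : Type) (_ : Finite ι) (P : ι → Set (X × ℕ)) (h : ι → G × Equiv.Perm ℕ),
    (∀ i, P i ∈ Star 𝒜) ∧ (∀ i j, i ≠ j → Disjoint (P i) (P j)) ∧ (⋃ i, P i) = A ∧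
    (∀ i j, i ≠ j → Disjoint (act (h i) '' P i) (act (h j) '' P j)) ∧
    (⋃ i, act (h i) '' P i) = B

/-- B with all its levels shifted upward by N. -/
def shift {X : Type} (N : ℕ) (B : Set (X × ℕ)) : Set (X × ℕ) :=
  {p | ∃ q ∈ B, p = (q.1, q.2 + N)}

/-- Statement: the family Star is closed under binary unions and intersections, differences, shifts
and the maps act h. -/
def P_star : Prop :=
  ∀ (X G : Type) [Group G] [MulAction G X] (𝒜 : Set (Set X)), IsAlg 𝒜 → Inv G 𝒜 →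
    (∅ : Set (X × ℕ)) ∈ Star 𝒜 ∧
    (∀ A ∈ Star 𝒜, ∀ B ∈ Star 𝒜, A ∪ B ∈ Star 𝒜 ∧ A ∩ B ∈ Star 𝒜 ∧ A \ B ∈ Star 𝒜) ∧
    (∀ A ∈ Star 𝒜, ∀ N : ℕ, shift N A ∈ Star 𝒜) ∧
    (∀ A ∈ Star 𝒜, ∀ h : G × Equiv.Perm ℕ, act h '' A ∈ Star 𝒜)

/-- Statement: equidecomposability is an equivalence relation on Star. -/
def P_equiv : Prop :=
  ∀ (X G : Type) [Group G] [MulAction G X] (𝒜 : Set (Set X)), IsAlg 𝒜 → Inv G 𝒜 →
    (∀ A ∈ Star 𝒜, Equi G 𝒜 A A) ∧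
    (∀ A B, Equi G 𝒜 A B → Equi G 𝒜 B A) ∧
    (∀ A B C, Equi G 𝒜 A B → Equi G 𝒜 B C → Equi G 𝒜 A C)

/-- Statement: equidecomposability is compatible with disjoint unions, and a member of Star is
equidecomposable with each of its shifts. -/
def P_add : Prop :=
  ∀ (X G : Type) [Group G] [MulAction G X] (𝒜 : Set (Set X)), IsAlg 𝒜 → Inv G 𝒜 →
    (∀ A A' B B', Disjoint A B → Disjoint A' B' → Equi G 𝒜 A A' → Equi G 𝒜 B B' →
      Equi G 𝒜 (A ∪ B) (A' ∪ B')) ∧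
    (∀ A ∈ Star 𝒜, ∀ N : ℕ, Equi G 𝒜 A (shift N A))

end W477.CN
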