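import Pool.Agent.W477.CN.Defs

/-! The example (project CN, MP_3fd8c4_al): X = ℤ, G = the permutations of ℤ that agree with a
translation by an even number outside a finite set, and the algebra of the sets that are eventually
constant at both ends. -/

namespace W477.CN

open Set

/-- The group of the permutations of ℤ which agree, outside a finite set, with the translation by an
even number. -/
def H : Subgroup (Equiv.Perm ℤ) where
  carrier := {σ | ∃ (k : ℤ) (N : ℤ), ∀ x, N ≤ |x| → σ x = x + 2 * k}
  one_mem' := ⟨0, 0, fun x _ => by simp⟩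
  mul_mem' := by
    rintro σ τ ⟨k, N, hσ⟩ ⟨l, M, hτ⟩
    refine ⟨k + l, |N| + |M| + 2 * |l|, fun x hx => ?_⟩
    have h1 : M ≤ |x| := by
      have := le_abs_self M; have := abs_nonneg N; have := abs_nonneg l; omega
    have h2 : N ≤ |x + 2 * l| := by
      have e : |x| ≤ |x + 2 * l| + |2 * l| := by
        have := abs_sub_abs_le_abs_sub x (x + 2 * l)
        have e2 : x - (x + 2 * l) = -(2 * l) := by ring
        rw [e2, abs_neg] at this
        have := abs_add_le (x + 2 * l) (-(2 * l))
        rw [abs_neg] at this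
        have e3 : x + 2 * l + -(2 * l) = x := by ring
        rw [e3] at this
        exact this
      rw [abs_mul, abs_two] at e
      have := le_abs_self N; have := abs_nonneg M; omega
    rw [Equiv.Perm.mul_apply, hτ x h1, hσ _ h2]; ring
  inv_mem' := by
    rintro σ ⟨k, N, hσ⟩
    refine ⟨-k, |N| + 2 * |k|, fun x hx => ?_⟩
    rw [Equiv.Perm.inv_eq_iff_eq, hσ]
    · ring
    · have e : |x| ≤ |x + 2 * -k| + |2 * k| := by
        have := abs_add_le (x + 2 * -k) (2 * k)
        have e3 : x + 2 * -k + 2 * k = x := by ring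
        rw [e3] at this
        exact this
      rw [abs_mul, abs_two] at e
      have := le_abs_self N
      omega

/-- The sets that are constant near +∞ and near -∞. -/
def Ev : Set (Set ℤ) :=
  {A | ∃ N : ℤ, (∀ x y, N ≤ x → N ≤ y → (x ∈ A ↔ y ∈ A)) ∧ (∀ x y, x ≤ -N → y ≤ -N → (x ∈ A ↔ y ∈ A))}

theorem ev_alg : IsAlg Ev where
  empty := ⟨0, fun _ _ _ _ => Iff.rfl, fun _ _ _ _ => Iff.rfl⟩
  univ := ⟨0, fun _ _ _ _ => by simp, fun _ _ _ _ => by simp⟩
  union := by
    rintro A ⟨N, h1, h2⟩ B ⟨M, h3, h4⟩
    refine ⟨max N M, fun x y hx hy => ?_, fun x y hx hy => ?_⟩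
    · simp only [mem_union]
      rw [h1 x y (by omega) (by omega), h3 x y (by omega) (by omega)]
    · simp only [mem_union]
      rw [h2 x y (by omega) (by omega), h4 x y (by omega) (by omega)]
  inter := by
    rintro A ⟨N, h1, h2⟩ B ⟨M, h3, h4⟩
    refine ⟨max N M, fun x y hx hy => ?_, fun x y hx hy => ?_⟩
    · simp only [mem_inter_iff]
      rw [h1 x y (by omega) (by omega), h3 x y (by omega) (by omega)]
    · simp only [mem_inter_iff]
      rw [h2 x y (by omega) (by omega), h4 x y (by omega) (by omega)]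
  compl := by
    rintro A ⟨N, h1, h2⟩
    exact ⟨N, fun x y hx hy => not_congr (h1 x y hx hy), fun x y hx hy => not_congr (h2 x y hx hy)⟩

/-- Preimage membership for images under permutations in H. -/
theorem mem_img (σ : H) (A : Set ℤ) (y : ℤ) : y ∈ (fun x => σ • x) '' A ↔ σ.1.symm y ∈ A := by
  constructor
  · rintro ⟨x, hx, rfl⟩
    have : σ.1.symm (σ • x) = x := σ.1.symm_apply_apply x
    rw [this]; exact hx
  · intro h
    exact ⟨_, h, σ.1.apply_symm_apply y⟩

theorem H_inv (σ : H) : ∃ (k : ℤ) (N : ℤ), ∀ x, N ≤ |x| → σ.1.symm x = x + 2 * k :=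
  (H.inv_mem σ.2 : _)

theorem ev_inv : Inv H Ev := by
  rintro σ A ⟨N, h1, h2⟩
  obtain ⟨k, M, hk⟩ := H_inv σ
  refine ⟨|N| + |M| + 2 * |k|, fun x y hx hy => ?_, fun x y hx hy => ?_⟩
  · rw [mem_img, mem_img]
    have a1 := le_abs_self N; have a2 := le_abs_self M; have a3 := neg_abs_le k
    have a4 := abs_nonneg N; have a5 := abs_nonneg M; have a6 := abs_nonneg k
    have b1 := le_abs_self x; have b2 := le_abs_self y
    rw [hk x (by omega), hk y (by omega)]
    exact h1 _ _ (by omega) (by omega)
  · rw [mem_img, mem_img]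
    have a1 := le_abs_self N; have a2 := le_abs_self M; have a3 := neg_abs_le k
    have a7 := le_abs_self k
    have a4 := abs_nonneg N; have a5 := abs_nonneg M; have a6 := abs_nonneg k
    have b1 := neg_abs_le x; have b2 := neg_abs_le y
    rw [hk x (by omega), hk y (by omega)]
    exact h2 _ _ (by omega) (by omega)

end W477.CN
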