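import Pool.Agent.W477.CN.Ex

/-! The parity invariant (project CN, MP_3fd8c4_al). -/

namespace W477.CN

open Set

/-- The window u ≤ x < v. -/
def W (u v : ℤ) : Set (ℤ × ℕ) := {p | u ≤ p.1 ∧ p.1 < v}

theorem star_fin {P : Set (ℤ × ℕ)} {𝒜 : Set (Set ℤ)} (hP : P ∈ Star 𝒜) (u v : ℤ) :
    (P ∩ W u v).Finite := by
  obtain ⟨n, f, -, rfl⟩ := hP
  refine ((Set.finite_Ico u v).prod (Set.finite_Iio n)).subset ?_
  rintro ⟨x, m⟩ ⟨⟨h1, -⟩, h2, h3⟩
  exact ⟨⟨h2, h3⟩, h1⟩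

/-- Number of points in the window. -/
noncomputable def F (P : Set (ℤ × ℕ)) (u v : ℤ) : ℕ := (P ∩ W u v).ncard

theorem F_add {P : Set (ℤ × ℕ)} {𝒜 : Set (Set ℤ)} (hP : P ∈ Star 𝒜) {u v w : ℤ} (h1 : u ≤ v)
    (h2 : v ≤ w) : F P u w = F P u v + F P v w := by
  unfold F
  rw [← Set.ncard_union_eq _ (star_fin hP _ _) (star_fin hP _ _)]
  · congr 1
    ext p
    simp only [mem_inter_iff, mem_union, W, mem_setOf_eq]
    constructor
    · rintro ⟨hp, h3, h4⟩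
      rcases lt_or_ge p.1 v with h | h
      · exact Or.inl ⟨hp, h3, h⟩
      · exact Or.inr ⟨hp, h, h4⟩
    · rintro (⟨hp, h3, h4⟩ | ⟨hp, h3, h4⟩)
      · exact ⟨hp, h3, by omega⟩
      · exact ⟨hp, by omega, h4⟩
  · rw [Set.disjoint_left]
    rintro p ⟨-, h3, h4⟩ ⟨-, h5, -⟩
    exact absurd h4 (not_lt.2 h5)

/-- The number of points in a window of even length near the ends is even. -/
theorem ends {P : Set (ℤ × ℕ)} (hP : P ∈ Star Ev) : ∃ L : ℤ, 0 ≤ L ∧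
    (∀ u j : ℤ, L ≤ u → 0 ≤ j → Even (F P u (u + 2 * j))) ∧
    (∀ u j : ℤ, u + 2 * j ≤ -L → 0 ≤ j → Even (F P u (u + 2 * j))) := by
  obtain ⟨n, f, hf, rfl⟩ := hP
  have hN : ∀ m, ∃ N : ℤ, 0 ≤ N ∧ (m < n → (∀ x y, N ≤ x → N ≤ y → (x ∈ f m ↔ y ∈ f m)) ∧
      (∀ x y, x ≤ -N → y ≤ -N → (x ∈ f m ↔ y ∈ f m))) := by
    intro m
    by_cases h : m < n
    · obtain ⟨N, h1, h2⟩ := hf m h
      refine ⟨|N|, abs_nonneg N, fun _ => ⟨fun x y hx hy => h1 x y ?_ ?_, fun x y hx hy => h2 x y ?_ ?_⟩⟩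
      all_goals (have := le_abs_self N; omega)
    · exact ⟨0, le_rfl, fun h' => absurd h' h⟩
  choose N hN0 hN using hN
  have hle : ∀ m, m < n → N m ≤ ∑ i ∈ Finset.range n, N i := fun m hm =>
    Finset.single_le_sum (f := N) (fun i _ => hN0 i) (Finset.mem_range.2 hm)
  have key : ∀ u j c : ℤ, 0 ≤ j → (∀ m, m < n → ∀ x, u ≤ x → x < u + 2 * j → (x ∈ f m ↔ c ∈ f m)) →
      Even (F {p : ℤ × ℕ | p.2 < n ∧ p.1 ∈ f p.2} u (u + 2 * j)) := by
    intro u j c hj h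
    have e : ({p : ℤ × ℕ | p.2 < n ∧ p.1 ∈ f p.2} ∩ W u (u + 2 * j)) =
        (Set.Ico u (u + 2 * j)) ×ˢ {m : ℕ | m < n ∧ c ∈ f m} := by
      ext ⟨x, m⟩
      simp only [W, mem_inter_iff, mem_setOf_eq, mem_prod, mem_Ico]
      constructor
      · rintro ⟨⟨h1, h2⟩, h3, h4⟩
        exact ⟨⟨h3, h4⟩, h1, (h m h1 x h3 h4).1 h2⟩
      · rintro ⟨⟨h3, h4⟩, h1, h2⟩
        exact ⟨⟨h1, (h m h1 x h3 h4).2 h2⟩, h3, h4⟩
    unfold F
    rw [e, Set.ncard_prod, ← Finset.coe_Ico, Set.ncard_coe_finset, Int.card_Ico]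
    have : (u + 2 * j - u).toNat = 2 * j.toNat := by omega
    rw [this, mul_assoc]
    exact even_two_mul _
  refine ⟨∑ i ∈ Finset.range n, N i, Finset.sum_nonneg fun i _ => hN0 i, fun u j hu hj => ?_,
    fun u j hu hj => ?_⟩
  · exact key u j u hj fun m hm x hx _ => (hN m hm).1 _ _ (by have := hle m hm; omega)
      (by have := hle m hm; omega)
  · exact key u j (u + 2 * j) hj fun m hm x hx hx' => (hN m hm).2 _ _ (by have := hle m hm; omega)
      (by have := hle m hm; omega)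

/-- Moving the large window by an even number does not change the parity. -/
theorem move {P : Set (ℤ × ℕ)} (hP : P ∈ Star Ev) (k : ℤ) : ∃ L : ℤ, 0 ≤ L ∧ ∀ l, L ≤ l →
    (Even (F P (-(2 * l)) (2 * l)) ↔ Even (F P (-(2 * l) - 2 * k) (2 * l - 2 * k))) := by
  obtain ⟨L, hL, h1, h2⟩ := ends hP
  refine ⟨L + 2 * |k|, by positivity, fun l hl => ?_⟩
  have a1 := le_abs_self k
  have a2 := neg_abs_le k
  rcases le_total 0 k with hk | hk
  · have e1 : F P (-(2 * l) - 2 * k) (2 * l) = F P (-(2 * l) - 2 * k) (-(2 * l)) + F P (-(2 * l)) (2 * l) :=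
      F_add hP (by omega) (by omega)
    have e2 : F P (-(2 * l) - 2 * k) (2 * l) = F P (-(2 * l) - 2 * k) (2 * l - 2 * k) + F P (2 * l - 2 * k) (2 * l) :=
      F_add hP (by omega) (by omega)
    have b1 := h1 (2 * l - 2 * k) k (by omega) hk
    have b2 := h2 (-(2 * l) - 2 * k) k (by omega) hk
    have c1 : 2 * l - 2 * k + 2 * k = 2 * l := by ring
    have c2 : -(2 * l) - 2 * k + 2 * k = -(2 * l) := by ring
    rw [c1] at b1
    rw [c2] at b2
    rw [Nat.even_iff] at *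
    rw [Nat.even_iff]
    omega
  · have e1 : F P (-(2 * l)) (2 * l - 2 * k) = F P (-(2 * l)) (2 * l) + F P (2 * l) (2 * l - 2 * k) :=
      F_add hP (by omega) (by omega)
    have e2 : F P (-(2 * l)) (2 * l - 2 * k) = F P (-(2 * l)) (-(2 * l) - 2 * k) + F P (-(2 * l) - 2 * k) (2 * l - 2 * k) :=
      F_add hP (by omega) (by omega)
    have b1 := h1 (2 * l) (-k) (by omega) (by omega)
    have b2 := h2 (-(2 * l)) (-k) (by omega) (by omega)
    have c1 : 2 * l + 2 * -k = 2 * l - 2 * k := by ring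
    have c2 : -(2 * l) + 2 * -k = -(2 * l) - 2 * k := by ring
    rw [c1] at b1
    rw [c2] at b2
    rw [Nat.even_iff] at *
    rw [Nat.even_iff]
    omega

theorem act_inj (h : H × Equiv.Perm ℕ) : Function.Injective (act h : ℤ × ℕ → ℤ × ℕ) := by
  rintro ⟨x, m⟩ ⟨y, l⟩ e
  simp only [act, Prod.mk.injEq] at e
  obtain ⟨e1, e2⟩ := e
  have e1' : x = y := h.1.1.injective e1
  have e2' : m = l := h.2.injective e2
  rw [e1', e2']

/-- The image of a piece under an element of the group has the same parity. -/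
theorem img {P : Set (ℤ × ℕ)} (hP : P ∈ Star Ev) (h : H × Equiv.Perm ℕ) : ∃ L : ℤ, ∀ l, L ≤ l →
    (Even (F (act h '' P) (-(2 * l)) (2 * l)) ↔ Even (F P (-(2 * l)) (2 * l))) := by
  obtain ⟨k, N, hk⟩ := h.1.2
  obtain ⟨L, hL0, hL⟩ := move hP k
  obtain ⟨B, hB⟩ := ((Set.finite_Icc (-|N|) |N|).image (fun x => |h.1.1 x|)).bddAbove
  refine ⟨L + |N| + |B| + 2 * |k| + 1, fun l hl => ?_⟩
  have a1 := le_abs_self k
  have a2 := neg_abs_le k
  have a3 := abs_nonneg N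
  have a4 := abs_nonneg B
  have a5 := le_abs_self B
  have a6 := le_abs_self N
  have a7 := abs_nonneg k
  rw [hL l (by omega)]
  have e : act h '' P ∩ W (-(2 * l)) (2 * l) = act h '' (P ∩ W (-(2 * l) - 2 * k) (2 * l - 2 * k)) := by
    have hx : ∀ x : ℤ, (-(2 * l) ≤ h.1.1 x ∧ h.1.1 x < 2 * l) ↔ (-(2 * l) - 2 * k ≤ x ∧ x < 2 * l - 2 * k) := by
      intro x
      by_cases hN : N ≤ |x|
      · rw [hk x hN]; omega
      · have h1 : x ∈ Set.Icc (-|N|) |N| := by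
          have := le_abs_self x; have := neg_abs_le x
          exact ⟨by omega, by omega⟩
        have h2 : |h.1.1 x| ≤ B := hB (mem_image_of_mem (fun x => |h.1.1 x|) h1)
        have h3 := le_abs_self (h.1.1 x)
        have h4 := neg_abs_le (h.1.1 x)
        rw [mem_Icc] at h1
        constructor
        · intro _; omega
        · intro _; omega
    ext q
    constructor
    · rintro ⟨⟨p, hp, rfl⟩, h1, h2⟩
      exact ⟨p, ⟨hp, (hx p.1).1 ⟨h1, h2⟩⟩, rfl⟩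
    · rintro ⟨p, ⟨hp, h1, h2⟩, rfl⟩
      exact ⟨⟨p, hp, rfl⟩, (hx p.1).2 ⟨h1, h2⟩⟩
  unfold F
  rw [e, Set.ncard_image_of_injective _ (act_inj h)]

theorem par (h1 : P_star) {A B : Set (ℤ × ℕ)} (hAB : Equi H Ev A B) : ∃ L : ℤ, ∀ l, L ≤ l →
    (Even (F A (-(2 * l)) (2 * l)) ↔ Even (F B (-(2 * l)) (2 * l))) := by
  obtain ⟨ι, hι, P, h, hP, hd, hA, hd', hB⟩ := hAB
  have hs : ∀ i, act (h i) '' P i ∈ Star Ev := fun i => (h1 ℤ H Ev ev_alg ev_inv).2.2.2 _ (hP i) _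
  choose L hL using fun i => img (hP i) (h i)
  have := Fintype.ofFinite ι
  obtain ⟨M, hM⟩ : ∃ M : ℤ, ∀ i, L i ≤ M := by
    obtain ⟨M, hM⟩ := (Set.finite_range L).bddAbove
    exact ⟨M, fun i => hM (mem_range_self i)⟩
  refine ⟨M, fun l hl => ?_⟩
  have sum : ∀ (Q : ι → Set (ℤ × ℕ)), (∀ i, Q i ∈ Star Ev) → (∀ i j, i ≠ j → Disjoint (Q i) (Q j)) →
      F (⋃ i, Q i) (-(2 * l)) (2 * l) = ∑ i, F (Q i) (-(2 * l)) (2 * l) := by
    intro Q hQ hQd
    unfold F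
    rw [Set.iUnion_inter, Set.ncard_iUnion_of_finite (fun i => star_fin (hQ i) _ _), finsum_eq_sum_of_fintype]
    intro i j hij
    exact (hQd i j hij).mono inter_subset_left inter_subset_left
  rw [← hA, ← hB, sum P hP hd, sum _ hs hd', Finset.even_sum_iff_even_card_odd, Finset.even_sum_iff_even_card_odd]
  have : (Finset.univ.filter fun i => Odd (F (P i) (-(2 * l)) (2 * l))) =
      (Finset.univ.filter fun i => Odd (F (act (h i) '' P i) (-(2 * l)) (2 * l))) := by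
    ext i
    simp only [Finset.mem_filter, Finset.mem_univ, true_and]
    rw [← Nat.not_even_iff_odd, ← Nat.not_even_iff_odd, hL i l ((hM i).trans hl)]
  rw [this]

end W477.CN
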