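import Pool.Agent.W477.CN.Semi
import Pool.Agent.W477.CN.Par
import Pool.Agent.W359.CN.EquivR
import Pool.Agent.W863.CN.Star
import Pool.Agent.W209.CN.Add

/-! The failure of the cancellation law (project CN, MP_3fd8c4_al). -/

namespace W477.CN

open Set

theorem all_star : P_star := W477.CN.H863.star_holds

theorem all_equiv : P_equiv := W477.CN.EquivH359.equiv_holds all_star

theorem all_add : P_add := W477.CN.H209.add_holds all_star

/-- The sum of two types. -/
noncomputable def add {X G : Type} [Group G] [MulAction G X] {S : Sys X G} : Ty S → Ty S → Ty S :=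
  addTy all_star all_equiv all_add

/-- The n-fold sum of a type (for n ≥ 1). -/
noncomputable def nsum {X G : Type} [Group G] [MulAction G X] {S : Sys X G} : ℕ → Ty S → Ty S
  | 0, α => α
  | 1, α => α
  | n + 2, α => add (nsum (n + 1) α) α

/-- The cancellation law for the type semigroup. -/
def Cancel {X G : Type} [Group G] [MulAction G X] (S : Sys X G) : Prop :=
  ∀ n : ℕ, 1 ≤ n → ∀ α β : Ty S, nsum n α = nsum n β → α = β

/-- The half line starting at c, on the level m. -/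
def hl (c : ℤ) (m : ℕ) : Set (ℤ × ℕ) := {p | c ≤ p.1 ∧ p.2 = m}

theorem hl_star (c : ℤ) (m : ℕ) : hl c m ∈ Star Ev := by
  refine ⟨m + 1, fun j => if j = m then {x | c ≤ x} else ∅, fun j _ => ?_, ?_⟩
  · by_cases h : j = m
    · simp only [h, if_true]
      refine ⟨|c| + 1, fun x y hx hy => ?_, fun x y hx hy => ?_⟩
      · have := le_abs_self c
        have h1 : c ≤ x := by omega
        have h2 : c ≤ y := by omega
        exact ⟨fun _ => h2, fun _ => h1⟩
      · have := neg_abs_le c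
        have h1 : ¬ c ≤ x := by omega
        have h2 : ¬ c ≤ y := by omega
        exact ⟨fun h => absurd h h1, fun h => absurd h h2⟩
    · simp only [h, if_false]
      exact ev_alg.empty
  · ext p
    constructor
    · rintro ⟨h1, h2⟩
      refine ⟨by omega, ?_⟩
      simp only [h2, if_true]
      exact h1
    · rintro ⟨h1, h2⟩
      by_cases h : p.2 = m
      · simp only [h, if_true] at h2
        exact ⟨h2, h⟩
      · simp only [h, if_false] at h2
        exact absurd h2 (notMem_empty _)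

theorem pt_star (c : ℤ) (m : ℕ) : ({(c, m)} : Set (ℤ × ℕ)) ∈ Star Ev := by
  have h : ({(c, m)} : Set (ℤ × ℕ)) = hl c m \ hl (c + 1) m := by
    ext ⟨x, j⟩
    simp only [mem_singleton_iff, Prod.mk.injEq, mem_sdiff, hl, mem_ofPred_eq]
    omega
  rw [h]
  exact ((all_star ℤ H Ev ev_alg ev_inv).2.1 _ (hl_star _ _) _ (hl_star _ _)).2.2

/-- Translation by -2. -/
def tr : H := ⟨Equiv.addRight (-2 : ℤ), -1, 0, fun x _ => by simp⟩

/-- The transposition of 0 and -1. -/
def sw : H := ⟨Equiv.swap 0 (-1), 0, 2, fun x hx => by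
  rw [Equiv.swap_apply_of_ne_of_ne]
  · ring
  · rintro rfl; simp at hx
  · rintro rfl; simp at hx⟩

theorem F_hl (c : ℤ) (hc : -1 ≤ c) (l : ℤ) (hl0 : 1 ≤ l) (hlc : c ≤ 2 * l) :
    F (hl c 0) (-(2 * l)) (2 * l) = (2 * l - c).toNat := by
  have e : hl c 0 ∩ W (-(2 * l)) (2 * l) = (Set.Ico c (2 * l)) ×ˢ ({0} : Set ℕ) := by
    ext ⟨x, m⟩
    simp only [hl, W, mem_inter_iff, mem_ofPred_eq, mem_prod, mem_Ico, mem_singleton_iff]
    omega
  unfold F
  rw [e, Set.ncard_prod, ← Finset.coe_Ico, Set.ncard_coe_finset, Int.card_Ico, Set.ncard_singleton,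
    mul_one]

theorem not_equi : ¬ Equi H Ev (hl 0 0) (hl (-1) 0) := by
  intro h
  obtain ⟨L, hL⟩ := par all_star h
  have h1 := hL (|L| + 1) (by have := le_abs_self L; omega)
  have h0 := abs_nonneg L
  rw [F_hl 0 (by omega) _ (by omega) (by omega), F_hl (-1) (by omega) _ (by omega) (by omega)] at h1
  rw [Nat.even_iff, Nat.even_iff] at h1
  omega

theorem iU (a b c : Set (ℤ × ℕ)) : (⋃ i, (![a, b, c] : Fin 3 → Set (ℤ × ℕ)) i) = a ∪ b ∪ c := by
  ext p
  simp only [mem_iUnion, mem_union]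
  constructor
  · rintro ⟨i, hi⟩
    fin_cases i
    · exact Or.inl (Or.inl hi)
    · exact Or.inl (Or.inr hi)
    · exact Or.inr hi
  · rintro ((h | h) | h)
    · exact ⟨0, h⟩
    · exact ⟨1, h⟩
    · exact ⟨2, h⟩

theorem equi2 : Equi H Ev (hl 0 0 ∪ shift 1 (hl 0 0)) (hl (-1) 0 ∪ shift 1 (hl (-1) 0)) := by
  have t1 : ∀ p : ℤ × ℕ, act (tr, (1 : Equiv.Perm ℕ)) p = (p.1 - 2, p.2) := fun p => rfl
  have t2 : ∀ p : ℤ × ℕ, act (sw, Equiv.swap 0 1) p = (Equiv.swap 0 (-1) p.1, Equiv.swap 0 1 p.2) :=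
    fun p => rfl
  have t3 : ∀ p : ℤ × ℕ, act ((1 : H), (1 : Equiv.Perm ℕ)) p = p := fun p => rfl
  have i1 : act (tr, (1 : Equiv.Perm ℕ)) '' hl 1 0 = hl (-1) 0 := by
    ext ⟨x, m⟩
    constructor
    · rintro ⟨p, ⟨h1, h2⟩, h3⟩
      rw [t1] at h3
      simp only [Prod.mk.injEq] at h3
      exact ⟨by show -1 ≤ x; omega, by show m = 0; omega⟩
    · rintro ⟨h1, h2⟩
      refine ⟨(x + 2, m), ⟨?_, h2⟩, ?_⟩
      · show 1 ≤ x + 2
        have : (-1 : ℤ) ≤ x := h1
        omega
      · rw [t1]; simp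
  have i2 : act (sw, Equiv.swap 0 1) '' {((0 : ℤ), (0 : ℕ))} = {((-1 : ℤ), (1 : ℕ))} := by
    rw [Set.image_singleton, t2]
    simp
  have i3 : act ((1 : H), (1 : Equiv.Perm ℕ)) '' hl 0 1 = hl 0 1 := by
    ext p; simp [t3]
  have im : ∀ i : Fin 3, act ((![(tr, 1), (sw, Equiv.swap 0 1), (1, 1)] : Fin 3 → H × Equiv.Perm ℕ) i) ''
      ((![hl 1 0, {(0, 0)}, hl 0 1] : Fin 3 → Set (ℤ × ℕ)) i) =
      (![hl (-1) 0, {(-1, 1)}, hl 0 1] : Fin 3 → Set (ℤ × ℕ)) i := by
    intro i
    fin_cases i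
    · exact i1
    · exact i2
    · exact i3
  refine ⟨Fin 3, inferInstance, ![hl 1 0, {(0, 0)}, hl 0 1], ![(tr, 1), (sw, Equiv.swap 0 1), (1, 1)],
    ?_, ?_, ?_, ?_, ?_⟩
  · intro i
    fin_cases i
    · exact hl_star _ _
    · exact pt_star _ _
    · exact hl_star _ _
  · intro i j hij
    rw [Set.disjoint_left]
    rintro ⟨x, m⟩
    fin_cases i <;> fin_cases j <;> first
      | exact absurd rfl hij
      | (simp [hl]; try omega)
  · rw [iU]
    ext ⟨x, m⟩
    simp only [mem_union, hl, mem_ofPred_eq, mem_singleton_iff, Prod.mk.injEq, shift, Prod.exists]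
    constructor
    · rintro ((h | h) | h)
      · left; omega
      · left; omega
      · right; exact ⟨x, 0, by omega, by omega, by omega⟩
    · rintro (h | ⟨a, b, h1, h2, h3⟩)
      · rcases eq_or_ne x 0 with h0 | h0
        · left; right; omega
        · left; left; omega
      · right; omega
  · intro i j hij
    rw [im i, im j, Set.disjoint_left]
    rintro ⟨x, m⟩
    fin_cases i <;> fin_cases j <;> first
      | exact absurd rfl hij
      | (simp [hl]; try omega)
  · have e : (fun i : Fin 3 => act ((![(tr, 1), (sw, Equiv.swap 0 1), (1, 1)] : Fin 3 → H × Equiv.Perm ℕ) i) ''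
      ((![hl 1 0, {(0, 0)}, hl 0 1] : Fin 3 → Set (ℤ × ℕ)) i)) =
      (![hl (-1) 0, {(-1, 1)}, hl 0 1] : Fin 3 → Set (ℤ × ℕ)) := funext im
    rw [e, iU]
    ext ⟨x, m⟩
    simp only [mem_union, hl, mem_ofPred_eq, mem_singleton_iff, Prod.mk.injEq, shift, Prod.exists]
    constructor
    · rintro ((h | h) | h)
      · left; omega
      · right; exact ⟨x, 0, by omega, by omega, by omega⟩
      · right; exact ⟨x, 0, by omega, by omega, by omega⟩
    · rintro (h | ⟨a, b, h1, h2, h3⟩)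
      · left; left; omega
      · rcases eq_or_ne x (-1) with h0 | h0
        · left; right; omega
        · right; omega

/-- The system of the example. -/
def sys : Sys ℤ H := ⟨Ev, ev_alg, ev_inv⟩

/-- The set of the even integers is not in the algebra. -/
theorem ev_ne : Ev ≠ Set.univ := by
  intro h
  have : {x : ℤ | Even x} ∈ Ev := by rw [h]; exact mem_univ _
  obtain ⟨N, h1, -⟩ := this
  have := h1 (2 * |N|) (2 * |N| + 1) (by have := le_abs_self N; have := abs_nonneg N; omega)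
    (by have := le_abs_self N; have := abs_nonneg N; omega)
  simp only [mem_ofPred_eq, Int.even_iff] at this
  omega

theorem main : ∃ α β : Ty sys, nsum 2 α = nsum 2 β ∧ α ≠ β := by
  let A : Rep sys := ⟨hl 0 0, hl_star 0 0⟩
  let B : Rep sys := ⟨hl (-1) 0, hl_star (-1) 0⟩
  have hst := all_star ℤ H Ev ev_alg ev_inv
  let A2 : Rep sys := ⟨hl 0 0 ∪ shift 1 (hl 0 0),
    (hst.2.1 _ (hl_star 0 0) _ (hst.2.2.1 _ (hl_star 0 0) 1)).1⟩
  let B2 : Rep sys := ⟨hl (-1) 0 ∪ shift 1 (hl (-1) 0),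
    (hst.2.1 _ (hl_star (-1) 0) _ (hst.2.2.1 _ (hl_star (-1) 0) 1)).1⟩
  refine ⟨ty A, ty B, ?_, fun h => ?_⟩
  · have eA : add (ty A) (ty A) = ty A2 := addTy_ty _ _ _ A A A2 1
      (fun p hp q hq => by
        have h1 : p.2 = 0 := hp.2
        have h2 : q.2 = 0 := hq.2
        omega) rfl
    have eB : add (ty B) (ty B) = ty B2 := addTy_ty _ _ _ B B B2 1
      (fun p hp q hq => by
        have h1 : p.2 = 0 := hp.2
        have h2 : q.2 = 0 := hq.2
        omega) rfl
    show add (ty A) (ty A) = add (ty B) (ty B)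
    rw [eA, eB]
    exact Quot.sound equi2
  · exact not_equi ((ty_eq all_equiv A B).1 h)

theorem final : ∃ (X G : Type) (_ : Group G) (_ : MulAction G X) (S : Sys X G),
    S.alg ≠ Set.univ ∧ ¬ Cancel S := by
  refine ⟨ℤ, H, inferInstance, inferInstance, sys, ev_ne, fun h => ?_⟩
  obtain ⟨α, β, h1, h2⟩ := main
  exact h2 (h 2 (by norm_num) α β h1)

end W477.CN
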