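import Pool.Agent.W477.CN.Defs

/-! The type semigroup (project CN, MP_3fd8c4_al). -/

namespace W477.CN

open Set

/-- A subalgebra of the power set of X that is invariant under the group G. -/
structure Sys (X G : Type) [Group G] [MulAction G X] where
  alg : Set (Set X)
  isAlg : IsAlg alg
  inv : Inv G alg

/-- The representatives of types: the members of the family Star. -/
def Rep {X G : Type} [Group G] [MulAction G X] (S : Sys X G) : Type :=
  {A : Set (X × ℕ) // A ∈ Star S.alg}

/-- Equidecomposability of two representatives. -/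
def Rel {X G : Type} [Group G] [MulAction G X] (S : Sys X G) (A B : Rep S) : Prop :=
  Equi G S.alg A.1 B.1

/-- The types: classes of representatives modulo equidecomposability. -/
def Ty {X G : Type} [Group G] [MulAction G X] (S : Sys X G) : Type := Quot (Rel S)

/-- The type of a representative. -/
def ty {X G : Type} [Group G] [MulAction G X] {S : Sys X G} (A : Rep S) : Ty S := Quot.mk _ A

/-- The least n such that all the levels of A are below n. -/
noncomputable def bd {X : Type} (A : Set (X × ℕ)) : ℕ := sInf {n | ∀ p ∈ A, p.2 < n}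

theorem lt_bd {X : Type} {𝒜 : Set (Set X)} {A : Set (X × ℕ)} (hA : A ∈ Star 𝒜) :
    ∀ p ∈ A, p.2 < bd A := by
  obtain ⟨n, f, -, rfl⟩ := hA
  have : n ∈ {k | ∀ p ∈ {p : X × ℕ | p.2 < n ∧ p.1 ∈ f p.2}, p.2 < k} := fun p hp => hp.1
  exact Nat.sInf_mem ⟨n, this⟩

theorem shift_disj {X : Type} {A B : Set (X × ℕ)} {N : ℕ}
    (h : ∀ p ∈ A, ∀ q ∈ B, p.2 ≠ q.2 + N) : Disjoint A (shift N B) := by
  rw [Set.disjoint_left]
  rintro p hp ⟨q, hq, rfl⟩
  exact h _ hp q hq rfl

/-- The sum of two representatives: the levels of B are shifted upward beyond those of A. -/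
noncomputable def addRep (h1 : P_star) {X G : Type} [Group G] [MulAction G X] {S : Sys X G}
    (A B : Rep S) : Rep S :=
  ⟨A.1 ∪ shift (bd A.1) B.1,
    ((h1 X G S.alg S.isAlg S.inv).2.1 _ A.2 _ ((h1 X G S.alg S.isAlg S.inv).2.2.1 _ B.2 _)).1⟩

theorem bd_disj {X G : Type} [Group G] [MulAction G X] {S : Sys X G} (A B : Rep S) :
    Disjoint A.1 (shift (bd A.1) B.1) :=
  shift_disj fun p hp q _ => by have := lt_bd A.2 p hp; omega

theorem equi_shift (h2 : P_equiv) (h3 : P_add) {X G : Type} [Group G]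
    [MulAction G X] {S : Sys X G} (B B' : Rep S) (h : Rel S B B') (N N' : ℕ) :
    Equi G S.alg (shift N B.1) (shift N' B'.1) := by
  obtain ⟨-, hs, ht⟩ := h2 X G S.alg S.isAlg S.inv
  obtain ⟨-, ha⟩ := h3 X G S.alg S.isAlg S.inv
  exact ht _ _ _ (hs _ _ (ha _ B.2 N)) (ht _ _ _ h (ha _ B'.2 N'))

theorem addRep_rel (h1 : P_star) (h2 : P_equiv) (h3 : P_add) {X G : Type} [Group G]
    [MulAction G X] {S : Sys X G} (A A' B B' : Rep S) (hA : Rel S A A') (hB : Rel S B B') :
    Rel S (addRep h1 A B) (addRep h1 A' B') :=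
  (h3 X G S.alg S.isAlg S.inv).1 _ _ _ _ (bd_disj A B) (bd_disj A' B') hA
    (equi_shift h2 h3 B B' hB _ _)

theorem rel_refl (h2 : P_equiv) {X G : Type} [Group G] [MulAction G X] {S : Sys X G}
    (A : Rep S) : Rel S A A := (h2 X G S.alg S.isAlg S.inv).1 _ A.2

/-- The sum of two types. -/
noncomputable def addTy (h1 : P_star) (h2 : P_equiv) (h3 : P_add) {X G : Type} [Group G]
    [MulAction G X] {S : Sys X G} : Ty S → Ty S → Ty S :=
  Quot.map₂ (addRep h1)
    (fun A B B' h => addRep_rel h1 h2 h3 A A B B' (rel_refl h2 A) h)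
    (fun A A' B h => addRep_rel h1 h2 h3 A A' B B h (rel_refl h2 B))

/-- The sum does not depend on the shift. -/
theorem addTy_ty (h1 : P_star) (h2 : P_equiv) (h3 : P_add) {X G : Type} [Group G]
    [MulAction G X] {S : Sys X G} (A B C : Rep S) (N : ℕ)
    (hN : ∀ p ∈ A.1, ∀ q ∈ B.1, p.2 ≠ q.2 + N) (hC : C.1 = A.1 ∪ shift N B.1) :
    addTy h1 h2 h3 (ty A) (ty B) = ty C := by
  apply Quot.sound
  show Equi G S.alg _ C.1
  rw [hC]
  exact (h3 X G S.alg S.isAlg S.inv).1 _ _ _ _ (bd_disj A B) (shift_disj hN) (rel_refl h2 A)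
    (equi_shift h2 h3 B B (rel_refl h2 B) _ _)

/-- Equality of types is equidecomposability. -/
theorem ty_eq (h2 : P_equiv) {X G : Type} [Group G] [MulAction G X] {S : Sys X G}
    (A B : Rep S) : ty A = ty B ↔ Rel S A B := by
  constructor
  · intro h
    have h' := Quot.eqvGen_exact h
    clear h
    induction h' with
    | rel x y hh => exact hh
    | refl x => exact rel_refl h2 x
    | symm x y _ ih => exact (h2 X G S.alg S.isAlg S.inv).2.1 _ _ ih
    | trans x y z _ _ ih1 ih2 => exact (h2 X G S.alg S.isAlg S.inv).2.2 _ _ _ ih1 ih2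
  · exact fun h => Quot.sound h

end W477.CN
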